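import Pool.Agent.Helper32_ABCT.EStmts

/-! # CTXOK: facet data in contexts (MP_a17fcb_ag, part E) -/

open MvPolynomial

namespace ABCT.H75

open ABCT FlatCell

theorem tsum_valid_symm {S T : Net} {q : ℕ} (h : (Net.tsum T S q).Valid) :
    (Net.tsum S T q).Valid := by
  obtain ⟨h1, h2, h3, h4, h5, h6, h7, h8⟩ := h
  refine ⟨h2, h1, h4, h3, h6, h5, h7.symm, ?_⟩
  rcases h8 with ⟨a, b⟩ | ⟨a, b⟩ | ⟨a, b⟩
  · exact Or.inl ⟨b, a⟩
  · exact Or.inr (Or.inr ⟨b, a⟩)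
  · exact Or.inr (Or.inl ⟨b, a⟩)

theorem ctxOk (ctxf : CtxFStmt) (cd : CdsumLStmt) (ct : CtsumLStmt)
    (ci : CisoStmt) (cs : CswapStmt) (ga : GallStmt) (fa : FacetStmt) : CtxOkStmt := by
  intro C N N' φ hV hF hal hok
  induction C with
  | hole => exact hok
  | dsumL C T ih =>
    have hV1 : (C.app N).Valid := hV.1
    have hV2 : T.Valid := hV.2.1
    have hF1 := (ctxf.1 C N N' hV1 hF hal).1
    exact cd (C.app N) T (C.app N') (C.fd φ) hV hF1 (ga T hV2) (ih hV1)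
  | dsumR T C ih =>
    have hV1 : (C.app N).Valid := hV.2.1
    have hV2 : T.Valid := hV.1
    have hd : Disjoint (C.app N).E T.E := hV.2.2.symm
    have hF1 := (ctxf.1 C N N' hV1 hF hal).1
    have hV' : (Net.dsum (C.app N) T).Valid := ⟨hV1, hV2, hd⟩
    have hok1 := cd (C.app N) T (C.app N') (C.fd φ) hV' hF1 (ga T hV2) (ih hV1)
    have hE : (C.app N').E = (C.app N).E := (fa _ _ hV1 hF1).2.1
    exact ci _ _ _ _ _ _ (cs.1 (C.app N) T hd) (cs.1 (C.app N') T (by rw [hE]; exact hd)) _ hok1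
  | tsumL C T q ih =>
    have hV1 : (C.app N).Valid := hV.1
    have hV2 : T.Valid := hV.2.1
    obtain ⟨hF1, hal1⟩ := ctxf.1 C N N' hV1 hF hal
    exact ct (C.app N) T (C.app N') q (C.fd φ) hV (hal1 q) hF1 (ga T hV2) (ih hV1)
  | tsumR T C q ih =>
    have hV1 : (C.app N).Valid := hV.2.1
    have hV2 : T.Valid := hV.1
    obtain ⟨hF1, hal1⟩ := ctxf.1 C N N' hV1 hF hal
    have hV' : (Net.tsum (C.app N) T q).Valid := tsum_valid_symm hV
    have hok1 := ct (C.app N) T (C.app N') q (C.fd φ) hV' (hal1 q) hF1 (ga T hV2) (ih hV1)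
    have hV'' : (Net.tsum (C.app N') T q).Valid :=
      (fa _ _ hV' (Net.Facet.tsumL _ _ _ q (hal1 q) hF1)).1
    exact ci _ _ _ _ _ _ (cs.2 (C.app N) T q hV') (cs.2 (C.app N') T q hV'') _ hok1

end ABCT.H75
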