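import Pool.Agent.Helper32_ABCT.EStmts

/-! # EGEN: uniqueness for nets with a generic vertex (MP_a17fcb_ag, part E) -/

open MvPolynomial

namespace ABCT.H75

open ABCT FlatCell

theorem kk_comm (C : Ctx) (l : List ℕ) (r n : ℕ) (J : Finset ℕ → Finset ℕ) (a b : ℕ) :
    kk C l r n J a b = kk C l r n J b a := by
  unfold kk
  congr 2
  apply Finset.filter_congr
  intro I _
  exact and_comm

theorem app_valid : ∀ (C : Ctx) (N : Net), (C.app N).Valid → N.Valid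
  | Ctx.hole, _, h => h
  | Ctx.dsumL C _, N, h => app_valid C N h.1
  | Ctx.dsumR _ C, N, h => app_valid C N h.2.1
  | Ctx.tsumL C _ _, N, h => app_valid C N h.1
  | Ctx.tsumR _ C _, N, h => app_valid C N h.2.1

theorem egen (ep : EpairStmt) (ed : EdegStmt) (eh : EhomStmt) (epo : EpolyStmt) (ee : EexpStmt)
    (cj : CtxJStmt) : EgenStmt := by
  intro C l r hV n N hN hyp
  have hE : HypE (C.app (Net.gen l r)) n N := hyp
  rw [ee.2.1 (C.app (Net.gen l r)).flat N]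
  intro v
  by_contra hv
  obtain ⟨J, Rp, k, hJ⟩ := cj C (Net.gen l r).E (Net.gen l r).M
  have hCJ : CtxJ C (Net.gen l r) J Rp k := (hJ (Net.gen l r) rfl rfl hV).1
  obtain ⟨hnd, hr2, hrl⟩ : l.Nodup ∧ 2 ≤ r ∧ r + 2 ≤ l.length := app_valid C _ hV
  obtain ⟨δ, hδ⟩ : ∃ δ, Dlt l r δ := by
    by_cases h : r + 3 ≤ l.length ∨ l.length = 4
    · exact ⟨0, Or.inl ⟨rfl, h⟩⟩
    · push Not at h
      exact ⟨1, Or.inr ⟨rfl, by omega, by omega⟩⟩
  obtain ⟨h1, h2, dH, h3, h4⟩ := eh C l r n N v J Rp k hV hCJ hN hv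
  refine epo (Fr C.R) l.length r δ dH (Ht C l r (cf (C.app (Net.gen l r)).flat N v))
    (kk C l r n J) (WW C l r n v) (by omega) ?_ h1 h2 (kk_comm C l r n J) h3 h4 ?_ ?_
  · rcases hδ with ⟨h, _⟩ | ⟨h, h', _⟩
    · exact Or.inl h
    · exact Or.inr ⟨h, h'⟩
  · intro a b hab hb
    exact ep C l r n δ N v J Rp k hV hCJ hN hE hv hδ a b hab hb
  · intro a ha
    exact ed C l r n δ N v J Rp k hV hCJ hN hE hv hδ a ha

end ABCT.H75
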